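import Pool.Agent.Q170.UM.StmM
import Pool.Agent.Q38.UV.COMP
import Pool.Agent.Q16.UV.ONE
import Pool.Agent.Q195.UV.PLC
import Pool.Agent.Q285.UV.MIN
import Pool.Agent.Q38.UV.RCD
import Pool.Agent.Q223.UV.SVM

/-!
Project UM (helper170), job GTM.
-/

set_option autoImplicit false
set_option linter.unusedSectionVars false

open UpperHalfPlane H294ZP IsDedekindDomain NumberField

namespace Pool.Agent.Q95.UM

open Pool.Agent.Y226 Pool.Agent.Y226.ZG Pool.Agent.Y226.ZM Pool.Agent.Y226.ZU Pool.Agent.Y92.ZX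
open Pool.Agent.Q170.FP Pool.Agent.Q170.UZ Pool.Agent.Q170.UV Pool.Agent.Q170.UM
open MvPolynomial (eval eval₂ eval₂Hom)

/-- elimination for a system -/
def Eli {r m : ℕ} {ι : Type} (H : ι → MvPolynomial (Fin m) (MvPolynomial (Fin r) QA)) : Prop :=
  ∀ c, ∃ S : Polynomial (MvPolynomial (Fin r) QA), S ≠ 0 ∧
    S.eval₂ MvPolynomial.C (MvPolynomial.X c) ∈ Ideal.span (Set.range H)

theorem Eli.mono {r m : ℕ} {ι ι' : Type} {H : ι → MvPolynomial (Fin m) (MvPolynomial (Fin r) QA)}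
    {H' : ι' → MvPolynomial (Fin m) (MvPolynomial (Fin r) QA)} (h : Eli H)
    (hs : ∀ i, ∃ i', H' i' = H i) : Eli H' := by
  intro c
  obtain ⟨S, hS, hm⟩ := h c
  refine ⟨S, hS, Ideal.span_mono ?_ hm⟩
  rintro _ ⟨i, rfl⟩
  obtain ⟨i', hi'⟩ := hs i
  exact ⟨i', hi'⟩

/-- solutions are specializations -/
theorem core1 (hCOMP : S_COMP) {r m : ℕ} {ι : Type} [Finite ι]
    (H : ι → MvPolynomial (Fin m) (MvPolynomial (Fin r) QA)) (hH : Eli H)
    (τ : Fin r → ℂ) (hτ : Pool.Agent.Q170.UV.Gen τ) :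
    Small fun t : Fin r → ℤ => ¬ ∀ z : Fin m → ℂ, Sol H (fun j => (t j : ℂ)) z →
      ∃ z', Sol H τ z' ∧ Spz τ z' (fun j => (t j : ℂ)) z := by
  obtain ⟨T, Z, hZ, hT, hTZ⟩ := hCOMP r m ι H hH τ hτ
  refine (small_zero Z hZ).mono ?_
  intro t ht
  by_contra hcon
  apply ht
  intro z hz
  obtain ⟨z', hz', hs⟩ := hTZ _ hcon z hz
  exact ⟨z', hT z' hz', hs⟩

/-- the same with an integral coordinate -/
theorem core2 (hCOMP : S_COMP) (hONE : S_ONE) (hMIN : S_MIN) (hING : S_ING) {r m : ℕ} {ι : Type}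
    [Finite ι] (H : ι → MvPolynomial (Fin m) (MvPolynomial (Fin r) QA)) (hH : Eli H)
    (τ : Fin r → ℂ) (hτ : Pool.Agent.Q170.UV.Gen τ) (c : Fin m) (Γ : Finset ℂ)
    (hΓ : ∀ γ ∈ Γ, IsAlgebraic ℚ γ) :
    Small fun t : Fin r → ℤ => ¬ ∀ z : Fin m → ℂ, Sol H (fun j => (t j : ℂ)) z →
      IsIntegral (Algebra.adjoin ℤ (Γ : Set ℂ)) (z c) →
      ∃ z', (Sol H τ z' ∧ IsIntegral (Algebra.adjoin ℤ (Gτ τ)) (z' c)) ∧
        Spz τ z' (fun j => (t j : ℂ)) z := by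
  classical
  obtain ⟨T, Z, hZ, hT, hTZ⟩ := hCOMP r m ι H hH τ hτ
  have h₃ : ∀ z' : {z' // z' ∈ T}, ∃ R : Polynomial (MvPolynomial (Fin r) QA),
      Irreducible R ∧ 0 < R.natDegree ∧ (R.map (eval₂Hom rA τ)).eval (z'.1 c) = 0 := by
    intro z'
    obtain ⟨S, hS0, hS⟩ := hH c
    have hsol := hT z'.1 z'.2
    refine hMIN r τ hτ (z'.1 c) S hS0 ?_
    have hle : Ideal.span (Set.range H) ≤ RingHom.ker (eval₂Hom (eval₂Hom rA τ) z'.1) := by
      rw [Ideal.span_le]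
      rintro _ ⟨i, rfl⟩
      exact hsol i
    have h4 := hle hS
    rw [RingHom.mem_ker, Polynomial.hom_eval₂] at h4
    rw [Polynomial.eval_map]
    have h5 : (eval₂Hom (eval₂Hom rA τ) z'.1).comp MvPolynomial.C = eval₂Hom rA τ :=
      RingHom.ext fun a => by simp
    rw [h5, MvPolynomial.coe_eval₂Hom, MvPolynomial.eval₂_X] at h4
    exact h4
  choose R hR using h₃
  have hs₃ : Small fun t : Fin r → ℤ => ∃ u : {z' // z' ∈ T},
      (¬ IsUnit (R u).leadingCoeff) ∧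
      ∃ c : ℂ, IsIntegral (Algebra.adjoin ℤ (Γ : Set ℂ)) c ∧
        ((R u).map (eval₂Hom rA fun j => (t j : ℂ))).eval c = 0 := by
    refine small_ex fun u => ?_
    by_cases h : ¬ IsUnit (R u).leadingCoeff
    · obtain ⟨h6, h7, -⟩ := hR u
      exact (hONE r (R u) h6 h7 h Γ hΓ).mono fun t ht => ht.2
    · exact small_false.mono fun t ht => h ht.1
  refine ((small_zero Z hZ).or hs₃).mono ?_
  intro t ht
  by_contra hcon
  simp only [not_or] at hcon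
  obtain ⟨c1, c3⟩ := hcon
  apply ht
  intro z hz hint
  obtain ⟨z', hz', hspz⟩ := hTZ _ c1 z hz
  refine ⟨z', ⟨hT z' hz', ?_⟩, hspz⟩
  obtain ⟨h6, h7, h8⟩ := hR ⟨z', hz'⟩
  have hunit : IsUnit (R ⟨z', hz'⟩).leadingCoeff := by
    by_contra hnu
    apply c3
    exact ⟨⟨z', hz'⟩, hnu, _, hint, hspz.poly c (R ⟨z', hz'⟩) h8⟩
  obtain ⟨Mo, hMo, B, hB⟩ := monic_of_unit _ hunit
  refine (hING r τ _).2 ⟨Mo, hMo, ?_⟩
  rw [hB, Polynomial.map_mul, Polynomial.eval_mul, h8, zero_mul]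

/-- a zpow relation as a polynomial relation -/
theorem zrel {k : ℕ} {u : Fin k → ℂ} (hu : ∀ l, u l ≠ 0) (m : Fin k → ℤ) (o : ℕ) :
    (∏ l, u l ^ (m l).toNat) ^ o - (∏ l, u l ^ (-m l).toNat) ^ o = 0 ↔
      (∏ l, u l ^ m l) ^ o = 1 := by
  have h1 : ∏ l, u l ^ m l = (∏ l, u l ^ (m l).toNat) / ∏ l, u l ^ (-m l).toNat := by
    rw [← Finset.prod_div_distrib]
    refine Finset.prod_congr rfl fun l _ => ?_
    rw [← zpow_natCast, ← zpow_natCast, ← zpow_sub₀ (hu l), Int.toNat_sub_toNat_neg]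
  have h2 : (∏ l, u l ^ (-m l).toNat) ^ o ≠ 0 :=
    pow_ne_zero _ (Finset.prod_ne_zero_iff.2 fun l _ => pow_ne_zero _ (hu l))
  rw [h1, div_pow, div_eq_one_iff_eq h2, sub_eq_zero]

theorem eval_tpol {n k r : ℕ} (m : Fin k → ℤ) (o : ℕ) (t : Fin r → ℂ)
    (z : Fin ((n + k) + (n + k)) → ℂ) :
    eval₂ (eval₂Hom rA t) z (tpol (n := n) (r := r) m o) =
      (∏ l, z (uI l) ^ (m l).toNat) ^ o - (∏ l, z (uI l) ^ (-m l).toNat) ^ o := by
  unfold tpol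
  rw [← MvPolynomial.coe_eval₂Hom]
  simp only [map_sub, map_pow, map_prod, MvPolynomial.coe_eval₂Hom, MvPolynomial.eval₂_X]

theorem sub_sys {n r : ℕ} {κ μ : Type}
    {F : κ → MvPolynomial (Fin n × Bool) (MvPolynomial (Fin r) QA)}
    {f g : Fin n → MvPolynomial (Fin r) QA} {P : MvPolynomial (Fin r) QA} {w : Fin n → ℕ}
    {M : μ → Fin n × Fin n × ℕ} {M' : Empty → Fin n × Fin n × ℕ} {τ : Fin r → ℂ}
    {z : Fin (n + n) → ℂ} (h : Sol (sysH F f g P w M) τ z) : Sol (sysH F f g P w M') τ z := by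
  rw [sys_sol] at h
  rw [sys_sol]
  exact ⟨h.1, h.2.1, fun e => e.elim⟩

theorem nz_spz {r m : ℕ} {τ t : Fin r → ℂ} {z' z : Fin m → ℂ} (h : Spz τ z' t z) (c : Fin m)
    (hz : z c ≠ 0) : z' c ≠ 0 := by
  intro h0
  apply hz
  have h1 := h (MvPolynomial.X c)
  rw [MvPolynomial.eval₂_X, MvPolynomial.eval₂_X] at h1
  exact h1 h0

theorem gtm (hCOMP : S_COMP) (hONE : S_ONE) (hMIN : S_MIN) (hING : S_ING) (hSVM : S_SVM) :
    S_GTM := by
  classical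
  intro n k r κ _ F f g hg helim τ hτ G ℳ O hℳ Γ hΓ
  -- the types
  let J := Fin n × Fin n × Fin (G + 1)
  have hE : ∀ (j l : Fin n) (N : ℕ), j ≠ l → 0 < N → Eli (sys1 F f g j l N) :=
    fun j l N hjl hN => helim j l N hjl hN
  -- two isogenies
  have s₁ : Small fun t : Fin r → ℤ => ∃ q : J × J, q.1.1 ≠ q.1.2.1 ∧ 0 < (q.1.2.2 : ℕ) ∧
      ¬ ∀ z : Fin ((n + k) + (n + k)) → ℂ,
        Sol (sysH F f g 1 0 fun b : Bool =>
          if b then (Fin.castAdd k q.1.1, Fin.castAdd k q.1.2.1, (q.1.2.2 : ℕ))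
          else (Fin.castAdd k q.2.1, Fin.castAdd k q.2.2.1, (q.2.2.2 : ℕ)))
          (fun j => (t j : ℂ)) z →
        ∃ z', Sol (sysH F f g 1 0 fun b : Bool =>
          if b then (Fin.castAdd k q.1.1, Fin.castAdd k q.1.2.1, (q.1.2.2 : ℕ))
          else (Fin.castAdd k q.2.1, Fin.castAdd k q.2.2.1, (q.2.2.2 : ℕ))) τ z' ∧
          Spz τ z' (fun j => (t j : ℂ)) z := by
    refine small_ex fun q => ?_
    by_cases h : q.1.1 ≠ q.1.2.1 ∧ 0 < (q.1.2.2 : ℕ)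
    · refine (core1 hCOMP _ ((hE q.1.1 q.1.2.1 q.1.2.2 h.1 h.2).mono ?_) τ hτ).mono
        fun t ht => ht.2.2
      rintro (i | i | i)
      · exact ⟨Sum.inl i, rfl⟩
      · exact ⟨Sum.inr (Sum.inl i), rfl⟩
      · exact ⟨Sum.inr (Sum.inr true), rfl⟩
    · exact small_false.mono fun t ht => h ⟨ht.1, ht.2.1⟩
  -- one isogeny and a constant coordinate
  have s₂ : Small fun t : Fin r → ℤ => ∃ q : J × Fin n, q.1.1 ≠ q.1.2.1 ∧ 0 < (q.1.2.2 : ℕ) ∧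
      ¬ ∀ z : Fin ((n + k) + (n + k)) → ℂ,
        Sol (sys1 F f g q.1.1 q.1.2.1 q.1.2.2) (fun j => (t j : ℂ)) z →
        IsIntegral (Algebra.adjoin ℤ (Γ : Set ℂ)) (z (xI q.2)) →
        ∃ z', (Sol (sys1 F f g q.1.1 q.1.2.1 q.1.2.2) τ z' ∧
          IsIntegral (Algebra.adjoin ℤ (Gτ τ)) (z' (xI q.2))) ∧
          Spz τ z' (fun j => (t j : ℂ)) z := by
    refine small_ex fun q => ?_
    by_cases h : q.1.1 ≠ q.1.2.1 ∧ 0 < (q.1.2.2 : ℕ)
    · exact (core2 hCOMP hONE hMIN hING _ (hE q.1.1 q.1.2.1 q.1.2.2 h.1 h.2) τ hτ _ Γ hΓ).mono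
        fun t ht => ht.2.2
    · exact small_false.mono fun t ht => h ⟨ht.1, ht.2.1⟩
  -- one isogeny and a multiplicative relation
  have s₃ : Small fun t : Fin r → ℤ => ∃ q : J × ℳ × Fin (O + 1), q.1.1 ≠ q.1.2.1 ∧
      0 < (q.1.2.2 : ℕ) ∧
      ¬ ∀ z : Fin ((n + k) + (n + k)) → ℂ,
        Sol (Sum.elim (sys1 F f g q.1.1 q.1.2.1 q.1.2.2)
          (fun _ : Unit => tpol q.2.1.1 (q.2.2 : ℕ))) (fun j => (t j : ℂ)) z →
        ∃ z', Sol (Sum.elim (sys1 F f g q.1.1 q.1.2.1 q.1.2.2)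
          (fun _ : Unit => tpol q.2.1.1 (q.2.2 : ℕ))) τ z' ∧
          Spz τ z' (fun j => (t j : ℂ)) z := by
    refine small_ex fun q => ?_
    by_cases h : q.1.1 ≠ q.1.2.1 ∧ 0 < (q.1.2.2 : ℕ)
    · exact (core1 hCOMP _ ((hE q.1.1 q.1.2.1 q.1.2.2 h.1 h.2).mono
        fun i => ⟨Sum.inl i, rfl⟩) τ hτ).mono fun t ht => ht.2.2
    · exact small_false.mono fun t ht => h ⟨ht.1, ht.2.1⟩
  refine ((s₁.or s₂).or s₃).mono ?_
  intro t ht
  by_contra hcon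
  simp only [not_or] at hcon
  obtain ⟨⟨c1, c2⟩, c3⟩ := hcon
  apply ht
  intro z hz hu htab
  have hz0 := hz
  unfold sys0 at hz0
  rw [sys_sol] at hz0
  rcases htab with (⟨j, l, j', l', hjl, hjl', hne', ⟨N, hN0, hN, hΨ⟩, N', hN0', hN', hΨ'⟩ |
    ⟨j, l, a, hjl, haj, hal, ⟨N, hN0, hN, hΨ⟩, hint⟩) |
    ⟨j, l, hjl, ⟨N, hN0, hN, hΨ⟩, m, hm, o, ho, hoO, hrel⟩
  · -- two isogenies
    have hc : ∀ z : Fin ((n + k) + (n + k)) → ℂ,
        Sol (sysH F f g 1 0 fun b : Bool =>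
          if b then (Fin.castAdd k j, Fin.castAdd k l, N)
          else (Fin.castAdd k j', Fin.castAdd k l', N'))
          (fun j => (t j : ℂ)) z →
        ∃ z', Sol (sysH F f g 1 0 fun b : Bool =>
          if b then (Fin.castAdd k j, Fin.castAdd k l, N)
          else (Fin.castAdd k j', Fin.castAdd k l', N')) τ z' ∧
          Spz τ z' (fun j => (t j : ℂ)) z := by
      by_contra hn
      exact c1 ⟨((j, l, ⟨N, Nat.lt_succ_of_le hN⟩), (j', l', ⟨N', Nat.lt_succ_of_le hN'⟩)),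
        hjl, hN0, hn⟩
    have hsol : Sol (sysH F f g 1 0 fun b : Bool =>
          if b then (Fin.castAdd k j, Fin.castAdd k l, N)
          else (Fin.castAdd k j', Fin.castAdd k l', N')) (fun j => (t j : ℂ)) z := by
      rw [sys_sol]
      refine ⟨hz0.1, hz0.2.1, ?_⟩
      rintro (_ | _)
      · exact hΨ'
      · exact hΨ
    obtain ⟨z', hz', hspz⟩ := hc z hsol
    have hz'' := hz'
    rw [sys_sol] at hz''
    refine ⟨z', ⟨sub_sys hz', fun i => nz_spz hspz _ (hu i), Or.inl ?_⟩, hspz⟩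
    exact (hSVM n (Gτ τ) (fun i => z' (xI i)) j l N hjl hN0
      (hz''.2.2 true)).1 j' l' N' hjl' hN0' (hz''.2.2 false) hne'
  · -- one isogeny and a constant coordinate
    have hc : ∀ z : Fin ((n + k) + (n + k)) → ℂ,
        Sol (sys1 F f g j l N) (fun j => (t j : ℂ)) z →
        IsIntegral (Algebra.adjoin ℤ (Γ : Set ℂ)) (z (xI a)) →
        ∃ z', (Sol (sys1 F f g j l N) τ z' ∧
          IsIntegral (Algebra.adjoin ℤ (Gτ τ)) (z' (xI a))) ∧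
          Spz τ z' (fun j => (t j : ℂ)) z := by
      by_contra hn
      exact c2 ⟨((j, l, ⟨N, Nat.lt_succ_of_le hN⟩), a), hjl, hN0, hn⟩
    have hsol : Sol (sys1 F f g j l N) (fun j => (t j : ℂ)) z := by
      unfold sys1
      rw [sys_sol]
      exact ⟨hz0.1, hz0.2.1, fun _ => hΨ⟩
    obtain ⟨z', ⟨hz', hint'⟩, hspz⟩ := hc z hsol hint
    have hz'' := hz'
    unfold sys1 at hz''
    rw [sys_sol] at hz''
    refine ⟨z', ⟨sub_sys hz', fun i => nz_spz hspz _ (hu i), Or.inl ?_⟩, hspz⟩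
    exact (hSVM n (Gτ τ) (fun i => z' (xI i)) j l N hjl hN0 (hz''.2.2 ())).2 a haj hal hint'
  · -- one isogeny and a multiplicative relation
    have hc : ∀ z : Fin ((n + k) + (n + k)) → ℂ,
        Sol (Sum.elim (sys1 F f g j l N) (fun _ : Unit => tpol m o)) (fun j => (t j : ℂ)) z →
        ∃ z', Sol (Sum.elim (sys1 F f g j l N) (fun _ : Unit => tpol m o)) τ z' ∧
          Spz τ z' (fun j => (t j : ℂ)) z := by
      by_contra hn
      exact c3 ⟨((j, l, ⟨N, Nat.lt_succ_of_le hN⟩), (⟨m, hm⟩, ⟨o, Nat.lt_succ_of_le hoO⟩)),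
        hjl, hN0, hn⟩
    have hsol : Sol (sys1 F f g j l N) (fun j => (t j : ℂ)) z := by
      unfold sys1
      rw [sys_sol]
      exact ⟨hz0.1, hz0.2.1, fun _ => hΨ⟩
    have hsol' : Sol (Sum.elim (sys1 F f g j l N) (fun _ : Unit => tpol m o))
        (fun j => (t j : ℂ)) z := by
      rintro (i | _)
      · exact hsol i
      · rw [Sum.elim_inr, eval_tpol]
        exact (zrel hu m o).2 hrel
    obtain ⟨z', hz', hspz⟩ := hc z hsol'
    have hu' : ∀ i : Fin k, z' (uI i) ≠ 0 := fun i => nz_spz hspz _ (hu i)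
    have hz1 : Sol (sys1 F f g j l N) τ z' := fun i => hz' (Sum.inl i)
    have hz2 := hz' (Sum.inr ())
    rw [Sum.elim_inr, eval_tpol] at hz2
    have hz'' := hz1
    unfold sys1 at hz''
    rw [sys_sol] at hz''
    refine ⟨z', ⟨sub_sys hz1, hu', Or.inr ⟨j, l, N, hjl, hN0, hz''.2.2 (), m, o, hℳ m hm, ho, ?_⟩⟩,
      hspz⟩
    exact (zrel hu' m o).1 hz2

/-- **UM-GTM.** -/
theorem t_GTM (_ : S_SVX) : S_GTM :=
  gtm Pool.Agent.Q38.UV.t_COMP (Pool.Agent.Q16.UV.t_ONE Pool.Agent.Q195.UV.t_PLC)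
    Pool.Agent.Q285.UV.t_MIN Pool.Agent.Q38.UV.t_ING Pool.Agent.Q223.UV.t_SVM

end Pool.Agent.Q95.UM
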